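import Mathlib

set_option autoImplicit false

namespace Pool.Agent.Results.MP_ded1c1b5_al.NotPower

/-- The vertices of level `m` of the spherically homogeneous rooted tree `T = T_b` in which every
vertex of level `i` has `b i` children: words `v_0 v_1 ... v_(m-1)` with `v_i ∈ {0, ..., b i - 1}`. -/
def Vert (b : ℕ → ℕ) (m : ℕ) : Type := (i : Fin m) → Fin (b i)

/-- The ancestor of level `k` of a vertex `v` of level `m ≥ k`: the prefix of length `k` of `v`. -/
def anc {b : ℕ → ℕ} {k m : ℕ} (h : k ≤ m) (v : Vert b m) : Vert b k :=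
  fun i => v (Fin.castLE h i)

/-- Families `(g_m)` of permutations `g_m` of the set of vertices of level `m`, for all `m`. -/
def LevelPerms (b : ℕ → ℕ) : Type := (m : ℕ) → Equiv.Perm (Vert b m)

instance instGroup (b : ℕ → ℕ) : Group (LevelPerms b) :=
  Pi.group (f := fun m => Equiv.Perm (Vert b m))

/-- The topology of pointwise convergence (the levels are finite sets, so this is the product of
the discrete topologies on the groups of permutations of the levels). -/
instance instTop (b : ℕ → ℕ) : TopologicalSpace (LevelPerms b) :=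
  Pi.topologicalSpace (Y := fun m => Equiv.Perm (Vert b m)) (t₂ := fun _ => ⊥)

/-- `Aut(T)`: the families of permutations of the levels that commute with taking ancestors. -/
def autT (b : ℕ → ℕ) : Subgroup (LevelPerms b) where
  carrier := {g | ∀ (k m : ℕ) (h : k ≤ m) (v : Vert b m), anc h (g m v) = g k (anc h v)}
  mul_mem' := by
    intro g g' hg hg' k m h v
    change anc h (g m (g' m v)) = g k (g' k (anc h v))
    rw [hg, hg']
  one_mem' := by
    intro k m h v
    rfl
  inv_mem' := by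
    intro g hg k m h v
    change anc h ((g m).symm v) = (g k).symm (anc h v)
    rw [Equiv.eq_symm_apply, ← hg, Equiv.apply_symm_apply]

/-- The rigid vertex stabiliser `rist_U(v)`, `v` a vertex of level `m`: the elements of `U` that fix
every vertex `w` outside the subtree `T_v` (`w`, of level `k`, lies in `T_v` iff `m ≤ k` and the
ancestor of level `m` of `w` is `v`). -/
def rist {b : ℕ → ℕ} (U : Subgroup (LevelPerms b)) {m : ℕ} (v : Vert b m) :
    Subgroup (LevelPerms b) where
  carrier := {g | g ∈ U ∧ ∀ (k : ℕ) (w : Vert b k), (¬ ∃ h : m ≤ k, anc h w = v) → g k w = w}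
  mul_mem' := by
    rintro g g' ⟨hg, hg1⟩ ⟨hg', hg1'⟩
    refine ⟨U.mul_mem hg hg', fun k w hw => ?_⟩
    change g k (g' k w) = w
    rw [hg1' k w hw, hg1 k w hw]
  one_mem' := ⟨U.one_mem, fun _ _ _ => rfl⟩
  inv_mem' := by
    rintro g ⟨hg, hg1⟩
    refine ⟨U.inv_mem hg, fun k w hw => ?_⟩
    change (g k).symm w = w
    rw [Equiv.symm_apply_eq, hg1 k w hw]

/-- The rigid level stabiliser `rist_U(m)`, generated by the `rist_U(v)` with `v` of level `m`. -/
def ristLevel {b : ℕ → ℕ} (U : Subgroup (LevelPerms b)) (m : ℕ) : Subgroup (LevelPerms b) :=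
  ⨆ v : Vert b m, rist U v

/-- `U` is a profinite branch group on `T_b`: a closed subgroup of `Aut(T)`, transitive on every
level, all of whose rigid level stabilisers have finite index in `U`. -/
structure IsProfiniteBranch {b : ℕ → ℕ} (U : Subgroup (LevelPerms b)) : Prop where
  le_aut : U ≤ autT b
  closed : IsClosed (U : Set (LevelPerms b))
  transitive : ∀ (m : ℕ) (v w : Vert b m), ∃ g ∈ U, g m v = w
  finiteIndex : ∀ m : ℕ, (ristLevel U m).relIndex U ≠ 0

/-- Two topological groups are commensurable if some open subgroup of the first is isomorphic, as a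
topological group, to some open subgroup of the second. -/
def TopCommensurable (A B : Type) [Group A] [TopologicalSpace A] [Group B] [TopologicalSpace B] :
    Prop :=
  ∃ (A' : Subgroup A) (B' : Subgroup B), IsOpen (A' : Set A) ∧ IsOpen (B' : Set B) ∧
    Nonempty (A' ≃ₜ* B')

/-! ### Vertices -/

/-- The branching sequence of the subtrees hanging from level one. -/
def shift (b : ℕ → ℕ) : ℕ → ℕ := fun i => b (i + 1)

def cons {b : ℕ → ℕ} {m : ℕ} (a : Fin (b 0)) (w : Vert (shift b) m) : Vert b (m + 1) :=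
  Fin.cons (α := fun i : Fin (m + 1) => Fin (b i)) a w

def head {b : ℕ → ℕ} {m : ℕ} (v : Vert b (m + 1)) : Fin (b 0) := v 0

def tail {b : ℕ → ℕ} {m : ℕ} (v : Vert b (m + 1)) : Vert (shift b) m := fun i => v i.succ

theorem cons_head_tail {b : ℕ → ℕ} {m : ℕ} (v : Vert b (m + 1)) : cons (head v) (tail v) = v :=
  Fin.cons_self_tail (α := fun i : Fin (m + 1) => Fin (b i)) v

@[simp] theorem head_cons {b : ℕ → ℕ} {m : ℕ} (a : Fin (b 0)) (w : Vert (shift b) m) :
    head (cons a w) = a := rfl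

@[simp] theorem tail_cons {b : ℕ → ℕ} {m : ℕ} (a : Fin (b 0)) (w : Vert (shift b) m) :
    tail (cons a w) = w := rfl

theorem anc_cons {b : ℕ → ℕ} {k m : ℕ} (h : k + 1 ≤ m + 1) (a : Fin (b 0))
    (w : Vert (shift b) m) : anc h (cons a w) = cons a (anc (Nat.le_of_succ_le_succ h) w) := by
  rw [← cons_head_tail (anc h (cons a w))]
  rfl

theorem anc_tail {b : ℕ → ℕ} {k m : ℕ} (h : k + 1 ≤ m + 1) (v : Vert b (m + 1)) :
    tail (anc h v) = anc (Nat.le_of_succ_le_succ h) (tail v) := rfl

theorem anc_head {b : ℕ → ℕ} {k m : ℕ} (h : k + 1 ≤ m + 1) (v : Vert b (m + 1)) :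
    head (anc h v) = head v := rfl

instance instSubsingleton (b : ℕ → ℕ) : Subsingleton (Vert b 0) :=
  ⟨fun _ _ => funext fun i => i.elim0⟩

instance instFintype (b : ℕ → ℕ) (m : ℕ) : Fintype (Vert b m) :=
  inferInstanceAs (Fintype ((i : Fin m) → Fin (b i)))

theorem mul_apply {b : ℕ → ℕ} (g h : LevelPerms b) (m : ℕ) (v : Vert b m) :
    (g * h) m v = g m (h m v) := rfl

theorem one_apply {b : ℕ → ℕ} (m : ℕ) (v : Vert b m) : (1 : LevelPerms b) m v = v := rfl

theorem inv_apply {b : ℕ → ℕ} (g : LevelPerms b) (m : ℕ) (v : Vert b m) :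
    (g⁻¹) m v = (g m).symm v := rfl

theorem LevelPerms.ext {b : ℕ → ℕ} {g h : LevelPerms b} (H : ∀ m v, g m v = h m v) : g = h :=
  funext fun m => Equiv.ext (H m)

/-! ### Wreath recursion -/

def glueLevel {b : ℕ → ℕ} (σ : Equiv.Perm (Fin (b 0))) (h : Fin (b 0) → LevelPerms (shift b))
    (m : ℕ) : Equiv.Perm (Vert b (m + 1)) where
  toFun v := cons (σ (head v)) (h (head v) m (tail v))
  invFun v := cons (σ.symm (head v)) ((h (σ.symm (head v)) m).symm (tail v))
  left_inv v := by
    simp [cons_head_tail]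
  right_inv v := by
    simp [cons_head_tail]

def glue {b : ℕ → ℕ} (σ : Equiv.Perm (Fin (b 0))) (h : Fin (b 0) → LevelPerms (shift b)) :
    LevelPerms b
  | 0 => 1
  | m + 1 => glueLevel σ h m

theorem glue_succ {b : ℕ → ℕ} (σ : Equiv.Perm (Fin (b 0))) (h : Fin (b 0) → LevelPerms (shift b))
    (m : ℕ) (v : Vert b (m + 1)) :
    glue σ h (m + 1) v = cons (σ (head v)) (h (head v) m (tail v)) := rfl

theorem glue_cons {b : ℕ → ℕ} (σ : Equiv.Perm (Fin (b 0))) (h : Fin (b 0) → LevelPerms (shift b))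
    (m : ℕ) (a : Fin (b 0)) (w : Vert (shift b) m) :
    glue σ h (m + 1) (cons a w) = cons (σ a) (h a m w) := rfl

theorem glue_mul {b : ℕ → ℕ} (σ τ : Equiv.Perm (Fin (b 0)))
    (h k : Fin (b 0) → LevelPerms (shift b)) :
    glue σ h * glue τ k = glue (σ * τ) (fun i => h (τ i) * k i) := by
  apply LevelPerms.ext
  intro m v
  cases m with
  | zero => exact Subsingleton.elim _ _
  | succ m => rfl

theorem glue_one {b : ℕ → ℕ} : glue (b := b) 1 (fun _ => 1) = 1 := by
  apply LevelPerms.ext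
  intro m v
  cases m with
  | zero => exact Subsingleton.elim _ _
  | succ m => exact cons_head_tail v

theorem glue_inv {b : ℕ → ℕ} (σ : Equiv.Perm (Fin (b 0)))
    (h : Fin (b 0) → LevelPerms (shift b)) :
    (glue σ h)⁻¹ = glue σ⁻¹ (fun i => (h (σ⁻¹ i))⁻¹) := by
  rw [inv_eq_iff_mul_eq_one, glue_mul, ← glue_one]
  congr 1
  · simp
  · funext i
    simp

theorem glue_inj {b : ℕ → ℕ} {σ τ : Equiv.Perm (Fin (b 0))}
    {h k : Fin (b 0) → LevelPerms (shift b)} (H : glue σ h = glue τ k) : σ = τ ∧ h = k := by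
  constructor
  · apply Equiv.ext
    intro a
    have := congrArg (fun g : LevelPerms b => head (g 1 (cons a (fun i => i.elim0)))) H
    exact this
  · funext a
    apply LevelPerms.ext
    intro m w
    have := congrArg (fun g : LevelPerms b => tail (g (m + 1) (cons a w))) H
    exact this

/-- The root word. -/
def nil (b : ℕ → ℕ) : Vert b 0 := fun i => i.elim0

def levelOne (b : ℕ → ℕ) : Vert b 1 ≃ Fin (b 0) where
  toFun v := head v
  invFun a := cons a (nil (shift b))
  left_inv v := by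
    have : nil (shift b) = tail v := Subsingleton.elim _ _
    rw [this]
    exact cons_head_tail v
  right_inv _ := rfl

/-- The action on the first level. -/
def hp (b : ℕ → ℕ) : LevelPerms b →* Equiv.Perm (Fin (b 0)) where
  toFun g := (levelOne b).permCongr (g 1)
  map_one' := by
    ext a
    rfl
  map_mul' g h := by
    apply Equiv.ext
    intro a
    change head ((g * h) 1 _) = head (g 1 ((levelOne b).symm ((levelOne b) (h 1 _))))
    rw [Equiv.symm_apply_apply]
    rfl

theorem hp_apply {b : ℕ → ℕ} (g : LevelPerms b) (a : Fin (b 0)) :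
    hp b g a = head (g 1 (cons a (nil (shift b)))) := rfl

theorem hp_glue {b : ℕ → ℕ} (σ : Equiv.Perm (Fin (b 0)))
    (h : Fin (b 0) → LevelPerms (shift b)) : hp b (glue σ h) = σ := by
  apply Equiv.ext
  intro a
  rfl

theorem head_apply {b : ℕ → ℕ} {g : LevelPerms b} (hg : g ∈ autT b) (m : ℕ)
    (v : Vert b (m + 1)) : head (g (m + 1) v) = hp b g (head v) := by
  have h1 := hg 1 (m + 1) (Nat.le_add_left 1 m) v
  rw [hp_apply, ← anc_head (k := 0) (Nat.le_add_left 1 m) (g (m + 1) v), h1]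
  congr 2
  rw [← cons_head_tail (anc (Nat.le_add_left 1 m) v)]
  congr 1
  exact Subsingleton.elim _ _

theorem exists_glue {b : ℕ → ℕ} {g : LevelPerms b} (hg : g ∈ autT b) :
    ∃ (σ : Equiv.Perm (Fin (b 0))) (h : Fin (b 0) → LevelPerms (shift b)), g = glue σ h := by
  have key : ∀ (m : ℕ) (v : Vert b (m + 1)) (a : Fin (b 0)), head v = a →
      cons a (tail v) = v := by
    intro m v a ha
    rw [← ha]
    exact cons_head_tail v
  refine ⟨hp b g, fun a m => 
    { toFun := fun w => tail (g (m + 1) (cons a w))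
      invFun := fun w => tail ((g (m + 1)).symm (cons (hp b g a) w))
      left_inv := ?_
      right_inv := ?_ }, ?_⟩
  · intro w
    beta_reduce
    rw [key m (g (m + 1) (cons a w)) (hp b g a) (head_apply hg m _), Equiv.symm_apply_apply]
    rfl
  · intro w
    beta_reduce
    rw [key m ((g (m + 1)).symm (cons (hp b g a) w)) a, Equiv.apply_symm_apply]
    · rfl
    · apply (hp b g).injective
      rw [← head_apply hg, Equiv.apply_symm_apply]
      rfl
  · apply LevelPerms.ext
    intro m v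
    cases m with
    | zero => exact Subsingleton.elim _ _
    | succ m =>
      change g (m + 1) v = cons (hp b g (head v)) (tail (g (m + 1) (cons (head v) (tail v))))
      rw [cons_head_tail]
      exact (key m _ _ (head_apply hg m v)).symm

theorem glue_mem_autT {b : ℕ → ℕ} {σ : Equiv.Perm (Fin (b 0))}
    {h : Fin (b 0) → LevelPerms (shift b)} :
    glue σ h ∈ autT b ↔ ∀ i, h i ∈ autT (shift b) := by
  constructor
  · intro H a k m hkm w
    have := congrArg tail (H (k + 1) (m + 1) (Nat.succ_le_succ hkm) (cons a w))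
    rw [anc_tail, glue_cons, tail_cons, anc_cons, glue_cons, tail_cons] at this
    exact this
  · intro H k m hkm v
    cases k with
    | zero => exact Subsingleton.elim _ _
    | succ k =>
      cases m with
      | zero => exact absurd hkm (Nat.not_succ_le_zero k)
      | succ m =>
        rw [← cons_head_tail v, glue_cons, anc_cons, anc_cons, glue_cons, H]

/-! ### The groups with prescribed local actions -/

/-- A family of local permutation groups. -/
def Loc (b : ℕ → ℕ) : Type := (i : ℕ) → Subgroup (Equiv.Perm (Fin (b i)))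

def Loc.shift {b : ℕ → ℕ} (P : Loc b) : Loc (shift b) := fun i => P (i + 1)

def InU : (n : ℕ) → {b : ℕ → ℕ} → Loc b → LevelPerms b → Prop
  | 0, b, _, g => g ∈ autT b
  | n + 1, b, P, g => ∃ (σ : Equiv.Perm (Fin (b 0))) (h : Fin (b 0) → LevelPerms (shift b)),
      g = glue σ h ∧ σ ∈ P 0 ∧ ∀ i, InU n P.shift (h i)

theorem InU.mul {n : ℕ} : ∀ {b : ℕ → ℕ} {P : Loc b} {g g' : LevelPerms b},
    InU n P g → InU n P g' → InU n P (g * g') := by
  induction n with
  | zero => 
    intro b P g g' hg hg'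
    exact (autT b).mul_mem hg hg'
  | succ n ih =>
    rintro b P g g' ⟨σ, h, rfl, hσ, hh⟩ ⟨τ, k, rfl, hτ, hk⟩
    exact ⟨σ * τ, _, glue_mul _ _ _ _, (P 0).mul_mem hσ hτ, fun i => ih (hh _) (hk _)⟩

theorem InU.one {n : ℕ} : ∀ {b : ℕ → ℕ} {P : Loc b}, InU n P (1 : LevelPerms b) := by
  induction n with
  | zero => 
    intro b P
    exact (autT b).one_mem
  | succ n ih =>
    intro b P
    exact ⟨1, fun _ => 1, glue_one.symm, (P 0).one_mem, fun i => ih⟩

theorem InU.inv {n : ℕ} : ∀ {b : ℕ → ℕ} {P : Loc b} {g : LevelPerms b},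
    InU n P g → InU n P g⁻¹ := by
  induction n with
  | zero => 
    intro b P g hg
    exact (autT b).inv_mem hg
  | succ n ih =>
    rintro b P g ⟨σ, h, rfl, hσ, hh⟩
    exact ⟨σ⁻¹, _, glue_inv _ _, (P 0).inv_mem hσ, fun i => ih (hh _)⟩

theorem InU.mem_autT {n : ℕ} : ∀ {b : ℕ → ℕ} {P : Loc b} {g : LevelPerms b},
    InU n P g → g ∈ autT b := by
  induction n with
  | zero => 
    intro b P g hg
    exact hg
  | succ n ih =>
    rintro b P g ⟨σ, h, rfl, hσ, hh⟩
    exact glue_mem_autT.2 fun i => ih (hh i)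

def UU {b : ℕ → ℕ} (P : Loc b) : Subgroup (LevelPerms b) where
  carrier := {g | ∀ n, InU n P g}
  mul_mem' := fun hg hg' n => (hg n).mul (hg' n)
  one_mem' := fun _ => InU.one
  inv_mem' := fun hg n => (hg n).inv

theorem glue_mem_UU {b : ℕ → ℕ} {P : Loc b} {σ : Equiv.Perm (Fin (b 0))}
    {h : Fin (b 0) → LevelPerms (shift b)} :
    glue σ h ∈ UU P ↔ σ ∈ P 0 ∧ ∀ i, h i ∈ UU P.shift := by
  constructor
  · intro H
    refine ⟨?_, fun i n => ?_⟩
    · obtain ⟨σ', h', e, h1, h2⟩ := H 1
      obtain ⟨rfl, rfl⟩ := glue_inj e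
      exact h1
    · obtain ⟨σ', h', e, h1, h2⟩ := H (n + 1)
      obtain ⟨rfl, rfl⟩ := glue_inj e
      exact h2 i
  · rintro ⟨h1, h2⟩ n
    cases n with
    | zero => exact glue_mem_autT.2 fun i => (h2 i 0).mem_autT
    | succ n => exact ⟨σ, h, rfl, h1, fun i => h2 i n⟩

theorem UU_le_autT {b : ℕ → ℕ} (P : Loc b) : UU P ≤ autT b := fun _ hg => (hg 0)

theorem exists_glue_UU {b : ℕ → ℕ} {P : Loc b} {g : LevelPerms b} (hg : g ∈ UU P) :
    ∃ (σ : Equiv.Perm (Fin (b 0))) (h : Fin (b 0) → LevelPerms (shift b)), g = glue σ h ∧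
      σ ∈ P 0 ∧ ∀ i, h i ∈ UU P.shift := by
  obtain ⟨σ, h, rfl⟩ := exists_glue (UU_le_autT P hg)
  exact ⟨σ, h, rfl, glue_mem_UU.1 hg⟩

/-! ### Topology -/

theorem discrete_level (b : ℕ → ℕ) (m : ℕ) :
    @Continuous _ _ (instTop b) ⊥ (fun g : LevelPerms b => g m) := by
  letI : ∀ m, TopologicalSpace (Equiv.Perm (Vert b m)) := fun _ => ⊥
  exact continuous_apply m

instance instCompact (b : ℕ → ℕ) : CompactSpace (LevelPerms b) := by
  letI : ∀ m, TopologicalSpace (Equiv.Perm (Vert b m)) := fun _ => ⊥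
  haveI : ∀ m, DiscreteTopology (Equiv.Perm (Vert b m)) := fun _ => ⟨rfl⟩
  exact Pi.compactSpace

instance instT2 (b : ℕ → ℕ) : T2Space (LevelPerms b) := by
  letI : ∀ m, TopologicalSpace (Equiv.Perm (Vert b m)) := fun _ => ⊥
  haveI : ∀ m, DiscreteTopology (Equiv.Perm (Vert b m)) := fun _ => ⟨rfl⟩
  exact Pi.t2Space


/-! ### Level stabilisers -/

/-- The stabiliser of the level `m` (and of all levels above it). -/
def stab (b : ℕ → ℕ) (m : ℕ) : Subgroup (LevelPerms b) where
  carrier := {g | ∀ k ≤ m, g k = 1}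
  mul_mem' := by
    intro g g' hg hg' k hk
    change g k * g' k = 1
    rw [hg k hk, hg' k hk, mul_one]
  one_mem' := fun _ _ => rfl
  inv_mem' := by
    intro g hg k hk
    change (g k)⁻¹ = 1
    rw [hg k hk, inv_one]

theorem stab_zero (b : ℕ → ℕ) : stab b 0 = ⊤ := by
  rw [eq_top_iff]
  intro g _ k hk
  obtain rfl := Nat.le_zero.1 hk
  exact Equiv.ext fun v => Subsingleton.elim _ _

theorem glue_mem_stab {b : ℕ → ℕ} {σ : Equiv.Perm (Fin (b 0))}
    {h : Fin (b 0) → LevelPerms (shift b)} {m : ℕ} :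
    glue σ h ∈ stab b (m + 1) ↔ σ = 1 ∧ ∀ i, h i ∈ stab (shift b) m := by
  constructor
  · intro H
    constructor
    · apply Equiv.ext
      intro a
      have := Equiv.congr_fun (H 1 (Nat.le_add_left 1 m)) (cons a (nil (shift b)))
      exact congrArg head this
    · intro a k hk
      apply Equiv.ext
      intro w
      have := Equiv.congr_fun (H (k + 1) (Nat.succ_le_succ hk)) (cons a w)
      exact congrArg tail this
  · rintro ⟨rfl, H⟩ k hk
    apply Equiv.ext
    intro v
    cases k with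
    | zero => exact Subsingleton.elim _ _
    | succ k =>
      rw [glue_succ, H _ k (Nat.le_of_succ_le_succ hk)]
      exact cons_head_tail v

theorem stab_finite (b : ℕ → ℕ) (m : ℕ) (U : Subgroup (LevelPerms b)) :
    (stab b m).relIndex U ≠ 0 := by
  let f : LevelPerms b →* ((k : Fin (m + 1)) → Equiv.Perm (Vert b k)) :=
    { toFun := fun g k => g k
      map_one' := rfl
      map_mul' := fun _ _ => rfl }
  have hf : f.ker ≤ stab b m := by
    intro g hg k hk
    exact congrFun (MonoidHom.mem_ker.1 hg) ⟨k, Nat.lt_succ_of_le hk⟩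
  have hfin : f.ker.FiniteIndex := inferInstance
  have h2 : (stab b m).FiniteIndex := Subgroup.finiteIndex_of_le hf
  exact (inferInstance : ((stab b m).subgroupOf U).FiniteIndex).index_ne_zero

theorem rist_le_stab {b : ℕ → ℕ} (U : Subgroup (LevelPerms b)) {m : ℕ} (v : Vert b m) :
    rist U v ≤ stab b m := by
  rintro g ⟨_, hg⟩ k hk
  apply Equiv.ext
  intro w
  have key : ∀ w : Vert b k, (¬ ∃ h : m ≤ k, anc h w = v) → g k w = w := hg k
  rcases Nat.lt_or_ge k m with hlt | hge
  · exact key w fun ⟨h, _⟩ => absurd h (Nat.not_le_of_gt hlt)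
  · obtain rfl : k = m := le_antisymm hk hge
    have anc_self : ∀ x : Vert b k, anc (le_refl k) x = x := fun x => rfl
    by_cases hw : w = v
    · by_contra hne
      have h1 : g k (g k w) = g k w := key _ fun ⟨h, e⟩ => hne (by
        rw [anc_self] at e
        rw [e, hw]
        rfl)
      exact hne ((g k).injective h1)
    · exact key w fun ⟨h, e⟩ => hw e

/-- The homomorphism `(h_i) ↦ (h_i acting on the i-th subtree of level one)`. -/
def psi (b : ℕ → ℕ) : (Fin (b 0) → LevelPerms (shift b)) →* LevelPerms b where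
  toFun h := glue 1 h
  map_one' := glue_one
  map_mul' h k := by
    rw [glue_mul]
    rfl

theorem psi_apply {b : ℕ → ℕ} (h : Fin (b 0) → LevelPerms (shift b)) : psi b h = glue 1 h := rfl

theorem psi_single_rist {b : ℕ → ℕ} {P : Loc b} {m : ℕ} (i : Fin (b 0)) 
    (v : Vert (shift b) m) {g : LevelPerms (shift b)} (hg : g ∈ rist (UU P.shift) v) :
    psi b (Pi.mulSingle i g) ∈ rist (UU P) (cons i v) := by
  refine ⟨glue_mem_UU.2 ⟨(P 0).one_mem, fun j => ?_⟩, ?_⟩
  · by_cases hj : j = i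
    · subst hj
      rw [Pi.mulSingle_eq_same]
      exact hg.1
    · rw [Pi.mulSingle_eq_of_ne hj]
      exact Subgroup.one_mem _
  · intro k w hw
    cases k with
    | zero => exact Subsingleton.elim _ _
    | succ k =>
      rw [psi_apply, glue_succ]
      by_cases hj : head w = i
      · rw [hj, Pi.mulSingle_eq_same, hg.2, Equiv.Perm.one_apply, ← hj, cons_head_tail]
        rintro ⟨h, e⟩
        apply hw
        refine ⟨Nat.succ_le_succ h, ?_⟩
        rw [← cons_head_tail w, anc_cons, e, hj]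
      · rw [Pi.mulSingle_eq_of_ne hj]
        exact cons_head_tail w

theorem le_ristLevel (m : ℕ) : ∀ {b : ℕ → ℕ} (P : Loc b), UU P ⊓ stab b m ≤ ristLevel (UU P) m := by
  induction m with
  | zero =>
    rintro b P g ⟨hg, _⟩
    refine Subgroup.mem_iSup_of_mem (nil b) ⟨hg, fun k w hw => ?_⟩
    exact absurd ⟨Nat.zero_le k, Subsingleton.elim _ _⟩ hw
  | succ m ih =>
    rintro b P g ⟨hg, hg'⟩
    obtain ⟨σ, h, rfl, hσ, hh⟩ := exists_glue_UU hg
    obtain ⟨rfl, hst⟩ := glue_mem_stab.1 hg'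
    have : h ∈ (ristLevel (UU P) (m + 1)).comap (psi b) := by
      apply Subgroup.pi_mem_of_mulSingle_mem
      intro i
      have h1 : h i ∈ ristLevel (UU P.shift) m := ih P.shift ⟨hh i, hst i⟩
      have h2 : ristLevel (UU P.shift) m ≤ ((ristLevel (UU P) (m + 1)).comap (psi b)).comap 
          (MonoidHom.mulSingle (fun _ => LevelPerms (shift b)) i) := by
        refine iSup_le fun v g hg => ?_
        exact Subgroup.mem_iSup_of_mem (cons i v) (psi_single_rist i v hg)
      exact h2 h1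
    exact this

theorem ristLevel_eq {b : ℕ → ℕ} (P : Loc b) (m : ℕ) :
    ristLevel (UU P) m = UU P ⊓ stab b m := by
  apply le_antisymm
  · refine iSup_le fun v => le_inf (fun g hg => hg.1) (rist_le_stab _ v)
  · exact le_ristLevel m P

theorem relIndex_ristLevel {b : ℕ → ℕ} (P : Loc b) (m : ℕ) :
    (ristLevel (UU P) m).relIndex (UU P) ≠ 0 := by
  rw [ristLevel_eq, Subgroup.inf_relIndex_left]
  exact stab_finite b m _

/-! ### Transitivity -/

def Trans {b : ℕ → ℕ} (P : Loc b) : Prop := ∀ i (x y : Fin (b i)), ∃ σ ∈ P i, σ x = y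

theorem transitive (m : ℕ) : ∀ {b : ℕ → ℕ} {P : Loc b} (_ : Trans P) (v w : Vert b m),
    ∃ g ∈ UU P, g m v = w := by
  induction m with
  | zero =>
    intro b P _ v w
    exact ⟨1, Subgroup.one_mem _, Subsingleton.elim _ _⟩
  | succ m ih =>
    intro b P hP v w
    obtain ⟨σ, hσ, h1⟩ := hP 0 (head v) (head w)
    obtain ⟨g, hg, h2⟩ := ih (P := P.shift) (fun i => hP (i + 1)) (tail v) (tail w)
    refine ⟨glue σ (fun _ => g), glue_mem_UU.2 ⟨hσ, fun _ => hg⟩, ?_⟩
    rw [glue_succ, h1, h2, cons_head_tail]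


/-! ### Closedness and compactness -/

theorem isClosed_level {b : ℕ → ℕ} (k m : ℕ) (p : Equiv.Perm (Vert b k) → Equiv.Perm (Vert b m) → Prop) :
    IsClosed {g : LevelPerms b | p (g k) (g m)} := by
  letI t : ∀ m, TopologicalSpace (Equiv.Perm (Vert b m)) := fun _ => ⊥
  haveI : ∀ m, DiscreteTopology (Equiv.Perm (Vert b m)) := fun _ => ⟨rfl⟩
  have h1 : Continuous (fun g : LevelPerms b => (g k, g m)) :=
    (discrete_level b k).prodMk (discrete_level b m)
  exact (isClosed_discrete {x : Equiv.Perm (Vert b k) × Equiv.Perm (Vert b m) | p x.1 x.2}).preimage h1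

theorem isClosed_autT (b : ℕ → ℕ) : IsClosed (autT b : Set (LevelPerms b)) := by
  have : (autT b : Set (LevelPerms b)) = ⋂ (k : ℕ) (m : ℕ) (h : k ≤ m) (v : Vert b m),
      {g | anc h (g m v) = g k (anc h v)} := by
    ext g
    simp only [Set.mem_iInter]
    rfl
  rw [this]
  refine isClosed_iInter fun k => isClosed_iInter fun m => isClosed_iInter fun h =>
    isClosed_iInter fun v => ?_
  exact isClosed_level k m (fun x y => anc h (y v) = x (anc h v))

theorem isOpen_stab (b : ℕ → ℕ) (m : ℕ) : IsOpen (stab b m : Set (LevelPerms b)) := by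
  letI t : ∀ m, TopologicalSpace (Equiv.Perm (Vert b m)) := fun _ => ⊥
  haveI : ∀ m, DiscreteTopology (Equiv.Perm (Vert b m)) := fun _ => ⟨rfl⟩
  have : (stab b m : Set (LevelPerms b)) = ⋂ k : Fin (m + 1), {g | g k = 1} := by
    ext g
    simp only [Set.mem_iInter]
    exact ⟨fun h k => h k (Nat.le_of_lt_succ k.2), fun h k hk => h ⟨k, Nat.lt_succ_of_le hk⟩⟩
  rw [this]
  refine isOpen_iInter_of_finite fun k => ?_
  exact (isOpen_discrete {x : Equiv.Perm (Vert b k) | x = 1}).preimage (discrete_level b k)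

theorem continuous_of_levels {X : Type} [TopologicalSpace X] {b : ℕ → ℕ} (f : X → LevelPerms b)
    (hf : ∀ m, @Continuous _ _ _ ⊥ (fun x => f x m)) : Continuous f := by
  letI t : ∀ m, TopologicalSpace (Equiv.Perm (Vert b m)) := fun _ => ⊥
  exact continuous_pi hf

theorem continuous_glue (b : ℕ → ℕ) (σ : Equiv.Perm (Fin (b 0))) :
    Continuous (fun h : Fin (b 0) → LevelPerms (shift b) => glue σ h) := by
  letI t : ∀ (b : ℕ → ℕ) m, TopologicalSpace (Equiv.Perm (Vert b m)) := fun _ _ => ⊥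
  haveI : ∀ (b : ℕ → ℕ) m, DiscreteTopology (Equiv.Perm (Vert b m)) := fun _ _ => ⟨rfl⟩
  apply continuous_of_levels
  intro m
  cases m with
  | zero => exact continuous_const
  | succ m =>
    have h1 : Continuous (fun (h : Fin (b 0) → LevelPerms (shift b)) (i : Fin (b 0)) => h i m) :=
      continuous_pi fun i => (discrete_level (shift b) m).comp (continuous_apply i)
    let F : (Fin (b 0) → Equiv.Perm (Vert (shift b) m)) → Equiv.Perm (Vert b (m + 1)) := fun h =>
      glueLevel σ (fun i k => if hk : k = m then hk ▸ h i else 1) m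
    have h2 : Continuous F := continuous_of_discreteTopology
    have h3 : (fun h : Fin (b 0) → LevelPerms (shift b) => glue σ h (m + 1)) =
        F ∘ (fun (h : Fin (b 0) → LevelPerms (shift b)) (i : Fin (b 0)) => h i m) := by
      funext h
      apply Equiv.ext
      intro v
      simp [F, glue_succ, glueLevel]
    rw [h3]
    exact h2.comp h1

theorem isCompact_InU (n : ℕ) : ∀ {b : ℕ → ℕ} (P : Loc b), IsCompact {g | InU n P g} := by
  induction n with
  | zero =>
    intro b P
    exact (isClosed_autT b).isCompact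
  | succ n ih =>
    intro b P
    have : {g | InU (n + 1) P g} = ⋃ σ : P 0, (fun h => glue (b := b) σ.1 h) ''
        (Set.univ.pi fun _ => {g | InU n P.shift g}) := by
      ext g
      simp only [Set.mem_iUnion, Set.mem_image, Set.mem_pi]
      constructor
      · rintro ⟨σ, h, rfl, h1, h2⟩
        exact ⟨⟨σ, h1⟩, h, fun i _ => h2 i, rfl⟩
      · rintro ⟨⟨σ, h1⟩, h, h2, rfl⟩
        exact ⟨σ, h, rfl, h1, fun i => h2 i trivial⟩
    rw [this]
    refine isCompact_iUnion fun σ => ?_
    exact (isCompact_univ_pi fun _ => ih P.shift).image (continuous_glue b σ.1)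

theorem isClosed_UU {b : ℕ → ℕ} (P : Loc b) : IsClosed (UU P : Set (LevelPerms b)) := by
  have : (UU P : Set (LevelPerms b)) = ⋂ n : ℕ, {g | InU n P g} := by
    ext g
    simp only [Set.mem_iInter]
    rfl
  rw [this]
  exact isClosed_iInter fun n => (isCompact_InU n P).isClosed

instance instCompactUU {b : ℕ → ℕ} (P : Loc b) : CompactSpace (UU P) :=
  isCompact_iff_compactSpace.1 (isClosed_UU P).isCompact

theorem isProfiniteBranch {b : ℕ → ℕ} {P : Loc b} (hP : Trans P) : IsProfiniteBranch (UU P) where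
  le_aut := UU_le_autT P
  closed := isClosed_UU P
  transitive m v w := transitive m hP v w
  finiteIndex m := relIndex_ristLevel P m

/-! ### The isomorphisms between stabilisers -/

/-- `(U')^(b 0) → U`. -/
def theta {b : ℕ → ℕ} (P : Loc b) : (Fin (b 0) → UU P.shift) →* UU P where
  toFun h := ⟨glue 1 (fun i => (h i).1), glue_mem_UU.2 ⟨(P 0).one_mem, fun i => (h i).2⟩⟩
  map_one' := Subtype.ext glue_one
  map_mul' h k := Subtype.ext (by
    change glue 1 _ = glue 1 _ * glue 1 _
    rw [glue_mul]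
    rfl)

theorem theta_injective {b : ℕ → ℕ} (P : Loc b) : Function.Injective (theta P) := by
  intro h k H
  have := (glue_inj (congrArg Subtype.val H)).2
  funext i
  exact Subtype.ext (congrFun this i)

theorem mem_range_theta {b : ℕ → ℕ} (P : Loc b) (g : UU P) :
    g ∈ (theta P).range ↔ hp b g.1 = 1 := by
  constructor
  · rintro ⟨h, rfl⟩
    exact hp_glue 1 _
  · intro H
    obtain ⟨g, hg⟩ := g
    obtain ⟨σ, h, rfl, hσ, hh⟩ := exists_glue_UU hg
    have h1 : σ = 1 := by rw [← H]; exact (hp_glue σ h).symm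
    subst h1
    exact ⟨fun i => ⟨h i, hh i⟩, rfl⟩

theorem continuous_theta {b : ℕ → ℕ} (P : Loc b) : Continuous (theta P) := by
  refine Continuous.subtype_mk ?_ _
  exact (continuous_glue b 1).comp (continuous_pi fun i => continuous_subtype_val.comp (continuous_apply i))

theorem range_theta {b : ℕ → ℕ} (P : Loc b) :
    Set.range (theta P) = Subtype.val ⁻¹' (stab b 1 : Set (LevelPerms b)) := by
  ext g
  constructor
  · rintro ⟨h, rfl⟩
    refine glue_mem_stab.2 ⟨rfl, fun i => ?_⟩
    rw [stab_zero]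
    trivial
  · intro H
    obtain ⟨g, hg⟩ := g
    obtain ⟨σ, h, rfl, hσ, hh⟩ := exists_glue_UU hg
    obtain ⟨rfl, _⟩ := glue_mem_stab.1 H
    exact ⟨fun i => ⟨h i, hh i⟩, rfl⟩

theorem isOpenEmbedding_theta {b : ℕ → ℕ} (P : Loc b) : Topology.IsOpenEmbedding (theta P) := by
  have h1 : Topology.IsClosedEmbedding (theta P) :=
    (continuous_theta P).isClosedEmbedding (theta_injective P)
  refine ⟨h1.toIsEmbedding, ?_⟩
  rw [range_theta]
  exact (isOpen_stab b 1).preimage continuous_subtype_val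

/-- `rist_U(m+1) ≅ (rist_U'(m))^(b 0)`. -/
theorem stabIso {b : ℕ → ℕ} (P : Loc b) (m : ℕ) :
    Nonempty ((Fin (b 0) → ↥(UU P.shift ⊓ stab (shift b) m)) ≃* ↥(UU P ⊓ stab b (m + 1))) := by
  let F : (Fin (b 0) → ↥(UU P.shift ⊓ stab (shift b) m)) →* ↥(UU P ⊓ stab b (m + 1)) :=
    { toFun := fun h => ⟨glue 1 (fun i => (h i).1), glue_mem_UU.2 ⟨(P 0).one_mem, fun i => (h i).2.1⟩,
        glue_mem_stab.2 ⟨rfl, fun i => (h i).2.2⟩⟩
      map_one' := Subtype.ext glue_one
      map_mul' := fun h k => Subtype.ext (by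
        change glue 1 _ = glue 1 _ * glue 1 _
        rw [glue_mul]
        rfl) }
  refine ⟨MulEquiv.ofBijective F ⟨?_, ?_⟩⟩
  · intro h k H
    have := (glue_inj (congrArg Subtype.val H)).2
    funext i
    exact Subtype.ext (congrFun this i)
  · rintro ⟨g, hg, hg'⟩
    obtain ⟨σ, h, rfl, hσ, hh⟩ := exists_glue_UU hg
    obtain ⟨rfl, h'⟩ := glue_mem_stab.1 hg'
    exact ⟨fun i => ⟨h i, hh i, h' i⟩, rfl⟩

/-! ### Counting kernels of epimorphisms onto `A5` -/

/-- The alternating group of degree five. -/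
abbrev A5 : Type := alternatingGroup (Fin 5)

theorem mem_A5 {a b c d : Fin 5} (h : a ≠ b) (h' : c ≠ d) :
    Equiv.swap a b * Equiv.swap c d ∈ alternatingGroup (Fin 5) := by
  rw [Equiv.Perm.mem_alternatingGroup, Equiv.Perm.sign_mul, Equiv.Perm.sign_swap h,
    Equiv.Perm.sign_swap h']
  rfl

theorem A5_not_comm : ¬ ∀ x y : A5, x * y = y * x := by
  intro h
  have h1 := h ⟨Equiv.swap 0 1 * Equiv.swap 1 2, mem_A5 (by decide) (by decide)⟩
    ⟨Equiv.swap 1 2 * Equiv.swap 2 3, mem_A5 (by decide) (by decide)⟩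
  have h2 := congrArg (fun x : A5 => x.1 0) h1
  revert h2
  decide

/-- The set of kernels of the epimorphisms onto `A5`. -/
def kers (G : Type) [Group G] : Set (Subgroup G) :=
  {N | ∃ f : G →* A5, Function.Surjective f ∧ f.ker = N}

/-- The number of kernels of epimorphisms onto `A5`. -/
noncomputable def nu (G : Type) [Group G] : ℕ := Nat.card (kers G)

theorem nu_congr {G H : Type} [Group G] [Group H] (e : G ≃* H) : nu G = nu H := by
  refine Nat.card_congr (Equiv.subtypeEquiv e.symm.comapSubgroup.toEquiv ?_)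
  intro N
  constructor
  · rintro ⟨f, hf, rfl⟩
    refine ⟨f.comp e.symm.toMonoidHom, hf.comp e.symm.surjective, ?_⟩
    rfl
  · rintro ⟨f, hf, h⟩
    refine ⟨f.comp e.toMonoidHom, hf.comp e.surjective, ?_⟩
    apply e.symm.comapSubgroup.injective
    change _ = N.comap e.symm.toMonoidHom at h
    change Subgroup.comap e.symm.toMonoidHom _ = N.comap e.symm.toMonoidHom
    rw [← h]
    ext x
    simp [MonoidHom.mem_ker]

/-- An epimorphism from a finite power onto `A5` factors through a coordinate. -/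
theorem factor {n : ℕ} {K : Type} [Group K] (f : (Fin n → K) →* A5) (hf : Function.Surjective f) :
    ∃ (i : Fin n) (φ : K →* A5), Function.Surjective φ ∧ f = φ.comp (Pi.evalMonoidHom _ i) := by
  classical
  let s : Fin n → (K →* (Fin n → K)) := fun i => MonoidHom.mulSingle (fun _ => K) i
  have hnorm : ∀ i, ((f.comp (s i)).range).Normal := by
    intro i
    constructor
    rintro _ ⟨x, rfl⟩ g
    obtain ⟨y, rfl⟩ := hf g
    refine ⟨y i * x * (y i)⁻¹, ?_⟩
    rw [MonoidHom.comp_apply, MonoidHom.comp_apply, ← map_mul, ← map_inv, ← map_mul]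
    congr 1
    funext j
    by_cases hj : j = i
    · subst hj
      simp [s]
    · simp [s, Pi.mulSingle_eq_of_ne hj]
  have hsimple : ∀ i, (f.comp (s i)).range = ⊥ ∨ (f.comp (s i)).range = ⊤ := fun i =>
    (hnorm i).eq_bot_or_eq_top
  have hex : ∃ i, (f.comp (s i)).range = ⊤ := by
    by_contra hno
    push Not at hno
    have h1 : f = 1 := by
      apply MonoidHom.pi_ext
      intro i x
      have h2 := (hsimple i).resolve_right (hno i)
      have h3 : f.comp (s i) x ∈ (f.comp (s i)).range := ⟨x, rfl⟩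
      rw [h2, Subgroup.mem_bot] at h3
      exact h3
    apply A5_not_comm
    intro x y
    obtain ⟨a, rfl⟩ := hf x
    obtain ⟨b, rfl⟩ := hf y
    simp [h1]
  obtain ⟨i, hi⟩ := hex
  refine ⟨i, f.comp (s i), MonoidHom.range_eq_top.1 hi, ?_⟩
  apply MonoidHom.pi_ext
  intro j x
  by_cases hj : j = i
  · subst hj
    simp [s]
  · have h4 : (f.comp (s j)).range = ⊥ := by
      refine (hsimple j).resolve_right fun hj' => A5_not_comm fun a c => ?_
      obtain ⟨a', rfl⟩ := MonoidHom.range_eq_top.1 hi a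
      obtain ⟨c', rfl⟩ := MonoidHom.range_eq_top.1 hj' c
      rw [MonoidHom.comp_apply, MonoidHom.comp_apply, ← map_mul, ← map_mul]
      congr 1
      exact Pi.mulSingle_commute (f := fun _ : Fin n => K) (Ne.symm hj) a' c'
    have h5 : f.comp (s j) x ∈ (f.comp (s j)).range := ⟨x, rfl⟩
    rw [h4, Subgroup.mem_bot] at h5
    rw [MonoidHom.comp_apply, Pi.evalMonoidHom_apply, Pi.mulSingle_eq_of_ne (Ne.symm hj), map_one]
    exact h5

theorem nu_pi (n : ℕ) (K : Type) [Group K] : nu (Fin n → K) = n * nu K := by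
  have key : Nat.card (Fin n × kers K) = Nat.card (kers (Fin n → K)) := by
    refine Nat.card_congr (Equiv.ofBijective (fun p => ⟨p.2.1.comap (Pi.evalMonoidHom _ p.1), ?_⟩) ⟨?_, ?_⟩)
    · obtain ⟨i, N, f, hf, rfl⟩ := p
      exact ⟨f.comp (Pi.evalMonoidHom _ i), hf.comp (Function.surjective_eval i), rfl⟩
    · rintro ⟨i, N, f, hf, rfl⟩ ⟨j, N', f', hf', rfl⟩ H
      have H' : f.ker.comap (Pi.evalMonoidHom (fun _ => K) i) =
        f'.ker.comap (Pi.evalMonoidHom (fun _ => K) j) := congrArg Subtype.val H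
      have hij : i = j := by
        by_contra hne
        apply A5_not_comm
        have : ∀ x : A5, x = 1 := by
          intro x
          obtain ⟨y, rfl⟩ := hf x
          have h1 : Pi.mulSingle i y ∈ f'.ker.comap (Pi.evalMonoidHom (fun _ => K) j) := by
            rw [Subgroup.mem_comap, Pi.evalMonoidHom_apply, Pi.mulSingle_eq_of_ne (Ne.symm hne)]
            exact Subgroup.one_mem _
          rw [← H', Subgroup.mem_comap, Pi.evalMonoidHom_apply, Pi.mulSingle_eq_same] at h1
          exact h1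
        intro x y
        rw [this x, this y]
      subst hij
      have : f.ker = f'.ker := by
        ext x
        have h1 := SetLike.ext_iff.1 H' (fun _ => x)
        simpa using h1
      simp only [this]
    · rintro ⟨N, f, hf, rfl⟩
      obtain ⟨i, φ, hφ, rfl⟩ := factor f hf
      exact ⟨⟨i, φ.ker, φ, hφ, rfl⟩, rfl⟩
  unfold nu
  rw [← key, Nat.card_prod, Nat.card_fin]


/-! ### The group `W` -/

def PW : Loc (fun _ => 5) := fun _ => alternatingGroup (Fin 5)

theorem A5_move (i : Fin 5) : ∃ σ ∈ alternatingGroup (Fin 5), σ i ≠ i := by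
  refine ⟨Equiv.swap i (i + 1) * Equiv.swap (i + 1) (i + 2), mem_A5 ?_ ?_, ?_⟩ <;>
  · revert i; decide

theorem A5_trans (x y : Fin 5) : ∃ σ ∈ alternatingGroup (Fin 5), σ x = y := by
  by_cases h : x = y
  · exact ⟨1, Subgroup.one_mem _, h⟩
  · obtain ⟨z, hz⟩ : ∃ z : Fin 5, z ≠ x ∧ z ≠ y := by revert x y; decide
    refine ⟨Equiv.swap z y * Equiv.swap x z, mem_A5 hz.2 (Ne.symm hz.1), ?_⟩
    rw [Equiv.Perm.mul_apply, Equiv.swap_apply_left, Equiv.swap_apply_left]

theorem conj_theta {b : ℕ → ℕ} {P : Loc b} (g : UU P) (i : Fin (b 0)) (x : UU P.shift) :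
    ∃ y, g * theta P (Pi.mulSingle i x) * g⁻¹ = theta P (Pi.mulSingle (hp b g.1 i) y) := by
  obtain ⟨g, hg⟩ := g
  obtain ⟨σ, h, rfl, hσ, hh⟩ := exists_glue_UU hg
  refine ⟨⟨h i, hh i⟩ * x * ⟨h i, hh i⟩⁻¹, ?_⟩
  rw [mul_inv_eq_iff_eq_mul]
  apply Subtype.ext
  change glue σ h * glue 1 _ = glue 1 _ * glue σ h
  rw [glue_mul, glue_mul, hp_glue, mul_one, one_mul]
  congr 1
  funext j
  by_cases hj : j = i
  · subst hj
    simp
  · have : σ j ≠ σ i := fun e => hj (σ.injective e)
    simp [Pi.mulSingle_eq_of_ne hj, Pi.mulSingle_eq_of_ne this]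

def piW : UU PW →* A5 :=
  ((hp (fun _ => 5)).comp (UU PW).subtype).codRestrict (alternatingGroup (Fin 5)) (by
    rintro ⟨g, hg⟩
    obtain ⟨σ, h, rfl, hσ, hh⟩ := exists_glue_UU hg
    exact (hp_glue (b := fun _ => 5) σ h).symm ▸ hσ)

theorem piW_surjective : Function.Surjective piW := by
  rintro ⟨σ, hσ⟩
  refine ⟨⟨glue σ (fun _ => 1), glue_mem_UU.2 ⟨hσ, fun _ => Subgroup.one_mem _⟩⟩, ?_⟩
  exact Subtype.ext (hp_glue (b := fun _ => 5) σ _)

theorem ker_piW : piW.ker = (theta PW).range := by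
  ext g
  rw [mem_range_theta, MonoidHom.mem_ker]
  exact Subtype.ext_iff


theorem ker_eq (f : UU PW →* A5) (hf : Function.Surjective f) : f.ker = piW.ker := by
  classical
  let T : (Fin 5 → UU PW.shift) →* UU PW := theta PW
  let s : Fin 5 → (UU PW.shift →* (Fin 5 → UU PW.shift)) := fun i =>
    MonoidHom.mulSingle (fun _ => UU PW.shift) i
  let R : Fin 5 → Subgroup A5 := fun i => (f.comp (T.comp (s i))).range
  have hcomm : ∀ i j, i ≠ j → R i = ⊤ → R j = ⊤ → False := by
    intro i j hij hi hj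
    apply A5_not_comm
    intro a c
    obtain ⟨a', rfl⟩ := MonoidHom.range_eq_top.1 hi a
    obtain ⟨c', rfl⟩ := MonoidHom.range_eq_top.1 hj c
    simp only [MonoidHom.comp_apply]
    rw [← map_mul, ← map_mul, ← map_mul, ← map_mul]
    congr 2
    exact Pi.mulSingle_commute (f := fun _ : Fin 5 => UU PW.shift) hij a' c'
  have hle : T.range ≤ f.ker := by
    by_contra hno
    have hnormal : (T.range.map f).Normal := by
      have h1 : T.range.Normal := by
        change (theta PW).range.Normal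
        rw [← ker_piW]
        infer_instance
      exact h1.map f hf
    have htop : T.range.map f = ⊤ := by
      refine hnormal.eq_bot_or_eq_top.resolve_left fun h => hno ?_
      exact (Subgroup.map_eq_bot_iff _).1 h
    have hR : ∀ i, R i = ⊥ ∨ R i = ⊤ := by
      intro i
      have : (R i).Normal := by
        constructor
        rintro _ ⟨x, rfl⟩ g
        have hg : g ∈ T.range.map f := by rw [htop]; trivial
        obtain ⟨_, ⟨h, rfl⟩, rfl⟩ := hg
        refine ⟨h i * x * (h i)⁻¹, ?_⟩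
        simp only [MonoidHom.comp_apply]
        rw [← map_mul, ← map_inv, ← map_mul, ← map_mul, ← map_inv, ← map_mul]
        congr 2
        funext j
        by_cases hj : j = i
        · subst hj
          simp [s]
        · simp [s, Pi.mulSingle_eq_of_ne hj]
      exact this.eq_bot_or_eq_top
    have hex : ∃ i, R i = ⊤ := by
      by_contra hno'
      push Not at hno'
      apply hno
      rintro _ ⟨h, rfl⟩
      have h1 : f.comp T = 1 := by
        apply MonoidHom.pi_ext
        intro i x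
        have h2 := (hR i).resolve_right (hno' i)
        have h3 : f.comp (T.comp (s i)) x ∈ R i := ⟨x, rfl⟩
        rw [h2, Subgroup.mem_bot] at h3
        exact h3
      exact DFunLike.congr_fun h1 h
    obtain ⟨i, hi⟩ := hex
    obtain ⟨σ, hσ, hσi⟩ := A5_move i
    obtain ⟨g, hg⟩ := piW_surjective ⟨σ, hσ⟩
    have hgi : hp (fun _ => 5) g.1 = σ := congrArg Subtype.val hg
    refine hcomm i (σ i) (Ne.symm hσi) hi ?_
    rw [eq_top_iff]
    intro y _
    have hy : (f g)⁻¹ * y * f g ∈ R i := by rw [hi]; trivial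
    obtain ⟨x, hx⟩ := hy
    obtain ⟨z, hz⟩ := conj_theta g i x
    refine ⟨z, ?_⟩
    change f (T (Pi.mulSingle (σ i) z)) = y
    rw [hgi] at hz
    change g * T (Pi.mulSingle i x) * g⁻¹ = T (Pi.mulSingle (σ i) z) at hz
    rw [← hz, map_mul, map_mul, map_inv]
    change f (T (Pi.mulSingle i x)) = _ at hx
    rw [hx]
    group
  rw [ker_piW]
  apply le_antisymm _ hle
  have h1 : f.ker.index = (theta PW).range.index := by
    rw [← ker_piW, Subgroup.index_ker, Subgroup.index_ker, MonoidHom.range_eq_top.2 hf,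
      MonoidHom.range_eq_top.2 piW_surjective]
  have h0 : f.ker.index ≠ 0 := by
    rw [Subgroup.index_ker]
    exact Nat.card_pos.ne'
  have h2 := Subgroup.relIndex_mul_index hle
  change (theta PW).range.relIndex f.ker * f.ker.index = (theta PW).range.index at h2
  rw [← h1] at h2
  rw [← Subgroup.relIndex_eq_one]
  exact Nat.eq_of_mul_eq_mul_right (Nat.pos_of_ne_zero h0) (by rw [h2, one_mul])

theorem nu_W : nu (UU PW) = 1 := by
  have : kers (UU PW) = {piW.ker} := by
    ext N
    constructor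
    · rintro ⟨f, hf, rfl⟩
      exact ker_eq f hf
    · rintro rfl
      exact ⟨piW, piW_surjective, rfl⟩
  unfold nu
  rw [this]
  simp

theorem nu_W_stab (m : ℕ) : nu ↥(UU PW ⊓ stab (fun _ => 5) m) = 5 ^ m := by
  induction m with
  | zero =>
    have : UU PW ⊓ stab (fun _ => 5) 0 = UU PW := by rw [stab_zero, inf_top_eq]
    rw [this, nu_W]
    rfl
  | succ m ih =>
    obtain ⟨e⟩ := stabIso PW m
    rw [← nu_congr e]
    change nu (Fin 5 → ↥(UU PW ⊓ stab (fun _ => 5) m)) = _
    rw [nu_pi, ih, pow_succ, mul_comm]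

/-! ### The group `U` -/

def bq (q : ℕ) : ℕ → ℕ
  | 0 => q
  | _ + 1 => 5

def PU (q : ℕ) : Loc (bq q)
  | 0 => ⊤
  | _ + 1 => alternatingGroup (Fin 5)

theorem nu_U_stab (q m : ℕ) : nu ↥(UU (PU q) ⊓ stab (bq q) (m + 1)) = q * 5 ^ m := by
  obtain ⟨e⟩ := stabIso (PU q) m
  rw [← nu_congr e]
  change nu (Fin q → ↥(UU PW ⊓ stab (fun _ => 5) m)) = _
  rw [nu_pi, nu_W_stab]

theorem trans_PU (q : ℕ) : Trans (PU q) := by
  intro i
  cases i with
  | zero => exact fun x y => ⟨Equiv.swap x y, Subgroup.mem_top _, Equiv.swap_apply_left x y⟩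
  | succ i => exact fun x y => A5_trans x y


/-! ### Normal subgroups -/

theorem anc_self {b : ℕ → ℕ} {m : ℕ} (x : Vert b m) : anc (le_refl m) x = x := rfl

theorem rist_fix {b : ℕ → ℕ} {U : Subgroup (LevelPerms b)} {m : ℕ} {v : Vert b m}
    {g : LevelPerms b} (hg : g ∈ rist U v) : g m v = v := by
  have h1 : g m = 1 := rist_le_stab U v hg m (le_refl m)
  rw [h1]
  rfl

theorem rist_comm {b : ℕ → ℕ} {U : Subgroup (LevelPerms b)} (hU : U ≤ autT b) {m : ℕ}
    {x y : Vert b m} (hxy : x ≠ y) {g h : LevelPerms b} (hg : g ∈ rist U x) (hh : h ∈ rist U y) :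
    g * h = h * g := by
  have aux : ∀ {x y : Vert b m} (_ : x ≠ y) {g h : LevelPerms b} (_ : g ∈ rist U x)
      (_ : h ∈ rist U y) (k : ℕ) (w : Vert b k), (∃ hk : m ≤ k, anc hk w = y) →
      g k (h k w) = h k (g k w) := by
    rintro x y hxy g h hg hh k w ⟨hk, e⟩
    have h1 : anc hk (h k w) = y := by
      rw [hU hh.1 m k hk w, e, rist_fix hh]
    have h2 : g k (h k w) = h k w := hg.2 k _ fun ⟨_, e'⟩ => hxy (e'.symm.trans h1)
    have h3 : g k w = w := hg.2 k _ fun ⟨_, e'⟩ => hxy (e'.symm.trans e)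
    rw [h2, h3]
  apply LevelPerms.ext
  intro k w
  change g k (h k w) = h k (g k w)
  by_cases hy : ∃ hk : m ≤ k, anc hk w = y
  · exact aux hxy hg hh k w hy
  · by_cases hx : ∃ hk : m ≤ k, anc hk w = x
    · exact (aux (Ne.symm hxy) hh hg k w hx).symm
    · rw [hh.2 k w hy, hg.2 k w hx, hh.2 k w hy]

theorem rist_conj {b : ℕ → ℕ} {U : Subgroup (LevelPerms b)} (hU : U ≤ autT b) {m : ℕ}
    {x : Vert b m} {g a : LevelPerms b} (ha : a ∈ U) (hg : g ∈ rist U x) :
    a * g * a⁻¹ ∈ rist U (a m x) := by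
  refine ⟨U.mul_mem (U.mul_mem ha hg.1) (U.inv_mem ha), fun k w hw => ?_⟩
  change a k (g k ((a k).symm w)) = w
  rw [hg.2 k, Equiv.apply_symm_apply]
  rintro ⟨hk, e⟩
  refine hw ⟨hk, ?_⟩
  rw [← e, ← hU ha m k hk, Equiv.apply_symm_apply]

/-- The commutator trick. -/
theorem commutator_mem {b : ℕ → ℕ} {U : Subgroup (LevelPerms b)} (hU : U ≤ autT b)
    {A : Subgroup U} (hA : A.Normal) {m : ℕ} {z : Vert b m} {a g h : U} (ha : a ∈ A)
    (haz : a.1 m z ≠ z) (hg : g.1 ∈ rist U z) (hh : h.1 ∈ rist U z) :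
    g⁻¹ * h * g * h⁻¹ ∈ A := by
  have hk : ∀ x : U, x.1 ∈ rist U z → (a * g * a⁻¹) * x = x * (a * g * a⁻¹) := fun x hx =>
    Subtype.ext (rist_comm hU haz (rist_conj hU a.2 hg) hx)
  have h1 : a * g * a⁻¹ * g⁻¹ ∈ A := by
    have : a * (g * a⁻¹ * g⁻¹) ∈ A := A.mul_mem ha (hA.conj_mem _ (A.inv_mem ha) g)
    simpa [mul_assoc] using this
  have h2 : (a * g * a⁻¹ * g⁻¹) * (h * (a * g * a⁻¹ * g⁻¹)⁻¹ * h⁻¹) ∈ A :=
    A.mul_mem h1 (hA.conj_mem _ (A.inv_mem h1) h)
  generalize hu : a * g * a⁻¹ = k at hk h1 h2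
  have hkg := hk g hg
  have hkh := hk h hh
  have e1 : (k * g⁻¹) * (h * (k * g⁻¹)⁻¹ * h⁻¹) = g⁻¹ * h * g * h⁻¹ := by
    have hkg' : k * g⁻¹ = g⁻¹ * k := by
      rw [mul_inv_eq_iff_eq_mul, mul_assoc, hkg, ← mul_assoc, inv_mul_cancel, one_mul]
    rw [hkg', mul_inv_rev, inv_inv]
    calc g⁻¹ * k * (h * (k⁻¹ * g) * h⁻¹) = g⁻¹ * (k * h) * (k⁻¹ * g) * h⁻¹ := by group
      _ = g⁻¹ * (h * k) * (k⁻¹ * g) * h⁻¹ := by rw [hkh]
      _ = g⁻¹ * h * g * h⁻¹ := by group
  rw [← e1]
  exact h2

theorem exists_noncomm (l : ℕ) : ∀ {b : ℕ → ℕ} {P : Loc b}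
    (_ : ∀ i, ∃ σ ∈ P i, ∃ τ ∈ P i, σ * τ ≠ τ * σ) (z : Vert b l),
    ∃ g ∈ rist (UU P) z, ∃ h ∈ rist (UU P) z, g * h ≠ h * g := by
  induction l with
  | zero =>
    intro b P hP z
    obtain ⟨σ, hσ, τ, hτ, hne⟩ := hP 0
    have hout : ∀ (g : LevelPerms b) (k : ℕ) (w : Vert b k),
        (¬ ∃ h : 0 ≤ k, anc h w = z) → g k w = w := fun g k w hw =>
      absurd ⟨Nat.zero_le k, Subsingleton.elim _ _⟩ hw
    refine ⟨glue σ (fun _ => 1), ⟨glue_mem_UU.2 ⟨hσ, fun _ => Subgroup.one_mem _⟩, hout _⟩,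
      glue τ (fun _ => 1), ⟨glue_mem_UU.2 ⟨hτ, fun _ => Subgroup.one_mem _⟩, hout _⟩, ?_⟩
    rw [glue_mul, glue_mul]
    exact fun e => hne (glue_inj e).1
  | succ l ih =>
    intro b P hP z
    obtain ⟨g, hg, h, hh, hne⟩ := ih (P := P.shift) (fun i => hP (i + 1)) (tail z)
    have h1 := psi_single_rist (head z) (tail z) hg
    have h2 := psi_single_rist (head z) (tail z) hh
    rw [cons_head_tail] at h1 h2
    refine ⟨_, h1, _, h2, fun e => hne ?_⟩
    rw [← map_mul, ← map_mul, ← Pi.mulSingle_mul, ← Pi.mulSingle_mul] at e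
    have e2 := congrFun (glue_inj e).2 (head z)
    simpa using e2

theorem A5_noncomm : ∃ σ ∈ alternatingGroup (Fin 5), ∃ τ ∈ alternatingGroup (Fin 5),
    σ * τ ≠ τ * σ := by
  by_contra h
  push Not at h
  exact A5_not_comm fun x y => Subtype.ext (h x.1 x.2 y.1 y.2)

theorem exists_noncomm_U (q l : ℕ) (z : Vert (bq q) (l + 1)) :
    ∃ g ∈ rist (UU (PU q)) z, ∃ h ∈ rist (UU (PU q)) z, g * h ≠ h * g := by
  obtain ⟨g, hg, h, hh, hne⟩ := exists_noncomm l (P := (PU q).shift) (fun i => A5_noncomm) (tail z)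
  have h1 := psi_single_rist (head z) (tail z) hg
  have h2 := psi_single_rist (head z) (tail z) hh
  rw [cons_head_tail] at h1 h2
  refine ⟨_, h1, _, h2, fun e => hne ?_⟩
  rw [← map_mul, ← map_mul, ← Pi.mulSingle_mul, ← Pi.mulSingle_mul] at e
  have e2 := congrFun (glue_inj e).2 (head z)
  simpa using e2

/-- A nontrivial element moves a vertex on every sufficiently deep level. -/
theorem exists_move {b : ℕ → ℕ} (hb : ∀ i, 2 ≤ b i) {a : LevelPerms b} (ha : a ∈ autT b)
    (hne : a ≠ 1) : ∃ j, ∀ l, j ≤ l → ∃ z : Vert b l, a l z ≠ z := by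
  by_contra hno
  push Not at hno
  apply hne
  apply LevelPerms.ext
  intro j x
  obtain ⟨l, hl, H⟩ := hno j
  let z : Vert b l := fun i => if h : i.1 < j then x ⟨i.1, h⟩ else ⟨0, lt_of_lt_of_le two_pos (hb i)⟩
  have hz : anc hl z = x := by
    funext i
    simp [anc, z]
  rw [← hz, ← ha j l hl z, H z]
  rfl

theorem inf_ne_bot {q : ℕ} (hq : 2 ≤ q) {A B : Subgroup (UU (PU q))} (hA : A.Normal) (hB : B.Normal)
    (hA1 : A ≠ ⊥) (hB1 : B ≠ ⊥) : A ⊓ B ≠ ⊥ := by
  intro hAB
  have hb : ∀ i, 2 ≤ bq q i := by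
    intro i
    cases i with
    | zero => exact hq
    | succ i => exact (by norm_num : 2 ≤ 5)
  obtain ⟨a, ha1⟩ := Subgroup.ne_bot_iff_exists_ne_one.1 hA1
  obtain ⟨c, hc1⟩ := Subgroup.ne_bot_iff_exists_ne_one.1 hB1
  have hU := UU_le_autT (PU q)
  obtain ⟨j, hj⟩ := exists_move hb (hU a.1.2) fun e => ha1 (Subtype.ext (Subtype.ext e))
  obtain ⟨k, hk⟩ := exists_move hb (hU c.1.2) fun e => hc1 (Subtype.ext (Subtype.ext e))
  obtain ⟨x, hx⟩ := hj (max j k + 1) (by omega)
  obtain ⟨z, hz⟩ := hk (max j k + 1) (by omega)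
  generalize max j k = l at x z hx hz
  obtain ⟨u, hu, hux⟩ := transitive (l + 1) (trans_PU q) x z
  obtain ⟨g, hg, h, hh, hne⟩ := exists_noncomm_U q l z
  have h1 : (⟨u, hu⟩ : UU (PU q)) * a.1 * (⟨u, hu⟩ : UU (PU q))⁻¹ ∈ A := hA.conj_mem _ a.2 _
  have h2 : ((⟨u, hu⟩ : UU (PU q)) * a.1 * (⟨u, hu⟩ : UU (PU q))⁻¹).1 (l + 1) z ≠ z := by
    change u (l + 1) (a.1.1 (l + 1) ((u (l + 1)).symm z)) ≠ z
    rw [← hux, Equiv.symm_apply_apply]
    exact fun e => hx ((u (l + 1)).injective e)
  have h3 := commutator_mem hU hA (g := ⟨g, hg.1⟩) (h := ⟨h, hh.1⟩) h1 h2 hg hh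
  have h4 := commutator_mem hU hB (g := ⟨g, hg.1⟩) (h := ⟨h, hh.1⟩) c.2 hz hg hh
  have h5 : (⟨g, hg.1⟩ : UU (PU q))⁻¹ * ⟨h, hh.1⟩ * ⟨g, hg.1⟩ * (⟨h, hh.1⟩ : UU (PU q))⁻¹ ∈
    A ⊓ B := ⟨h3, h4⟩
  rw [hAB, Subgroup.mem_bot] at h5
  have h6 : g⁻¹ * h * g * h⁻¹ = 1 := congrArg Subtype.val h5
  apply hne
  rw [mul_inv_eq_one, mul_assoc, inv_mul_eq_iff_eq_mul] at h6
  exact h6.symm

theorem nontrivial_U {q : ℕ} (hq : 2 ≤ q) : Nontrivial (UU (PU q)) := by
  refine ⟨⟨⟨glue (b := bq q) (Equiv.swap (⟨0, by omega⟩ : Fin q) (⟨1, by omega⟩ : Fin q))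
    (fun _ => 1), glue_mem_UU.2 ⟨Subgroup.mem_top _, fun _ => Subgroup.one_mem _⟩⟩, 1, fun e => ?_⟩⟩
  have h1 := (congrArg Subtype.val e).trans (glue_one (b := bq q)).symm
  have h2 := (glue_inj h1).1
  have h3 : (⟨1, by omega⟩ : Fin q) = ⟨0, by omega⟩ :=
    (Equiv.swap_apply_left (⟨0, by omega⟩ : Fin q) (⟨1, by omega⟩ : Fin q)).symm.trans
      (Equiv.congr_fun h2 (⟨0, by omega⟩ : Fin q))
  exact absurd (congrArg Fin.val h3) (by norm_num)

/-- `U` itself is not a proper power. -/
theorem not_power_U {q : ℕ} (hq : 2 ≤ q) {n : ℕ} (hn : 1 < n) (K : Type) [Group K]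
    (e : UU (PU q) ≃* (Fin n → K)) : False := by
  classical
  haveI := nontrivial_U hq
  have hK : Nontrivial K := by
    by_contra hK
    rw [not_nontrivial_iff_subsingleton] at hK
    exact not_subsingleton (UU (PU q)) e.toEquiv.subsingleton
  obtain ⟨x, hx⟩ := exists_ne (1 : K)
  let N : Fin n → Subgroup (UU (PU q)) := fun i =>
    { carrier := {g | ∀ j, j ≠ i → e g j = 1}
      mul_mem' := fun {a c} ha hc j hj => by
        rw [map_mul, Pi.mul_apply, ha j hj, hc j hj, one_mul]
      one_mem' := fun j hj => by rw [map_one, Pi.one_apply]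
      inv_mem' := fun {a} ha j hj => by rw [map_inv, Pi.inv_apply, ha j hj, inv_one] }
  have hnorm : ∀ i, (N i).Normal := fun i => ⟨fun a ha g j hj => by
    rw [map_mul, map_mul, map_inv, Pi.mul_apply, Pi.mul_apply, Pi.inv_apply, ha j hj, mul_one,
      mul_inv_cancel]⟩
  have hne : ∀ i, N i ≠ ⊥ := by
    intro i hi
    have h1 : e.symm (Pi.mulSingle i x) ∈ N i := by
      intro j hj
      rw [MulEquiv.apply_symm_apply, Pi.mulSingle_eq_of_ne hj]
    rw [hi, Subgroup.mem_bot] at h1
    have h2 := congrArg (fun g => e g i) h1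
    simp only [MulEquiv.apply_symm_apply, Pi.mulSingle_eq_same, map_one, Pi.one_apply] at h2
    exact hx h2
  refine inf_ne_bot hq (hnorm ⟨0, by omega⟩) (hnorm ⟨1, hn⟩) (hne _) (hne _) ?_
  rw [eq_bot_iff]
  rintro g ⟨h0, h1⟩
  rw [Subgroup.mem_bot]
  apply e.injective
  rw [map_one]
  funext j
  by_cases hj : j = ⟨0, by omega⟩
  · refine h1 j ?_
    rw [hj]
    intro h
    simp at h
  · exact h0 j hj

theorem rist_not_power {q : ℕ} (hq : 2 ≤ q) {n : ℕ} (hn : 1 < n) (m : ℕ) (K : Type) [Group K]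
    (e : ↥(ristLevel (UU (PU q)) m) ≃* (Fin n → K)) : n ∣ q * 5 ^ (m - 1) ∧ 1 ≤ m := by
  rw [ristLevel_eq] at e
  cases m with
  | zero =>
    rw [stab_zero, inf_top_eq] at e
    exact (not_power_U hq hn K e).elim
  | succ m =>
    have h1 := nu_congr e
    rw [nu_U_stab, nu_pi] at h1
    refine ⟨?_, Nat.le_add_left 1 m⟩
    rw [Nat.add_sub_cancel, h1]
    exact Nat.dvd_mul_right _ _

/-! ### Commensurability -/

/-- `X` is isomorphic to an open subgroup of `Y`. -/
def OE (X Y : Type) [Group X] [TopologicalSpace X] [Group Y] [TopologicalSpace Y] : Prop :=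
  ∃ f : X →* Y, Topology.IsOpenEmbedding f

theorem OE.trans {X Y Z : Type} [Group X] [TopologicalSpace X] [Group Y] [TopologicalSpace Y]
    [Group Z] [TopologicalSpace Z] (h1 : OE X Y) (h2 : OE Y Z) : OE X Z := by
  obtain ⟨f, hf⟩ := h1
  obtain ⟨g, hg⟩ := h2
  exact ⟨g.comp f, hg.comp hf⟩

theorem OE.of_inv {X Y : Type} [Group X] [TopologicalSpace X] [Group Y] [TopologicalSpace Y]
    (f : X →* Y) (g : Y → X) (h1 : ∀ x, g (f x) = x) (h2 : ∀ y, f (g y) = y) (hf : Continuous f)
    (hg : Continuous g) : OE X Y :=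
  ⟨f, (Homeomorph.mk ⟨f, g, h1, h2⟩ hf hg).isOpenEmbedding⟩

theorem OE.reindex (X : Type) [Group X] [TopologicalSpace X] {ι κ : Type} (e : ι ≃ κ) :
    OE (ι → X) (κ → X) := by
  refine OE.of_inv (X := ι → X) (Y := κ → X)
    { toFun := fun x k => x (e.symm k), map_one' := rfl, map_mul' := fun _ _ => rfl }
    (fun y i => y (e i)) ?_ ?_ ?_ ?_
  · intro x
    funext i
    simp
  · intro y
    funext k
    simp
  · exact continuous_pi fun k => continuous_apply _
  · exact continuous_pi fun k => continuous_apply _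

theorem OE.pi {X Y : Type} [Group X] [TopologicalSpace X] [Group Y] [TopologicalSpace Y]
    (h : OE X Y) (n : ℕ) : OE (Fin n → X) (Fin n → Y) := by
  obtain ⟨f, hf⟩ := h
  refine ⟨{ toFun := fun x i => f (x i), map_one' := by funext i; simp,
            map_mul' := fun x y => by funext i; simp }, ?_⟩
  exact Topology.IsOpenEmbedding.piMap fun _ => hf

theorem OE.sum {X : Type} [Group X] [TopologicalSpace X] {ι κ : Type} (lam : Type)
    (h : OE (ι → X) (κ → X)) : OE (ι ⊕ lam → X) (κ ⊕ lam → X) := by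
  obtain ⟨f, hf⟩ := h
  let F : (ι ⊕ lam → X) →* (κ ⊕ lam → X) :=
    { toFun := fun x => Sum.elim (f fun i => x (Sum.inl i)) (fun j => x (Sum.inr j))
      map_one' := by
        funext s
        cases s with
        | inl s => 
          change f 1 s = 1
          rw [map_one]
          rfl
        | inr s => rfl
      map_mul' := by
        intro x y
        funext s
        cases s with
        | inl s => 
          change f ((fun i => x (Sum.inl i)) * (fun i => y (Sum.inl i))) s = _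
          rw [map_mul]
          rfl
        | inr s => rfl }
  refine ⟨F, ?_⟩
  have h1 := ((Homeomorph.sumArrowHomeomorphProdArrow (ι := κ) (ι' := lam) (X := X)).symm.isOpenEmbedding.comp
    (hf.prodMap Topology.IsOpenEmbedding.id)).comp
    (Homeomorph.sumArrowHomeomorphProdArrow (ι := ι) (ι' := lam) (X := X)).isOpenEmbedding
  exact h1

theorem TopCommensurable.of_OE {C A B : Type} [Group A] [TopologicalSpace A] [Group B]
    [TopologicalSpace B] [Group C] [TopologicalSpace C] (h1 : OE C A) (h2 : OE C B) :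
    TopCommensurable A B := by
  obtain ⟨f, hf⟩ := h1
  obtain ⟨g, hg⟩ := h2
  refine ⟨f.range, g.range, hf.isOpen_range, hg.isOpen_range, ⟨?_⟩⟩
  let e : f.range ≃* g.range :=
    (MonoidHom.ofInjective hf.injective).symm.trans (MonoidHom.ofInjective hg.injective)
  have aux : ∀ {Z : Type} [Group Z] [TopologicalSpace Z] (k : C →* Z)
      (hk : Topology.IsOpenEmbedding k), Continuous (MonoidHom.ofInjective hk.injective) ∧
      Continuous (MonoidHom.ofInjective hk.injective).symm := by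
    intro Z _ _ k hk
    constructor
    · exact hk.continuous.subtype_mk _
    · rw [hk.toIsEmbedding.continuous_iff]
      have : (k ∘ (MonoidHom.ofInjective hk.injective).symm) = Subtype.val := by
        funext y
        obtain ⟨x, rfl⟩ := (MonoidHom.ofInjective hk.injective).surjective y
        simp only [Function.comp_apply, MulEquiv.symm_apply_apply]
        rfl
      rw [this]
      exact continuous_subtype_val
  exact { e with
    continuous_toFun := (aux g hg).1.comp (aux f hf).2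
    continuous_invFun := (aux f hf).1.comp (aux g hg).2 }

theorem OE_W : OE (Fin 5 → UU PW) (UU PW) := ⟨theta PW, isOpenEmbedding_theta PW⟩

theorem OE_U (q : ℕ) : OE (Fin q → UU PW) (UU (PU q)) := ⟨theta (PU q), isOpenEmbedding_theta (PU q)⟩

theorem OE_add4 (k : ℕ) : OE (Fin (k + 1 + 4) → UU PW) (Fin (k + 1) → UU PW) := by
  have h1 : OE (UU PW) (Fin 1 → UU PW) := by
    refine OE.of_inv (X := UU PW) (Y := Fin 1 → UU PW)
      { toFun := fun x _ => x, map_one' := rfl, map_mul' := fun _ _ => rfl } (fun y => y 0) ?_ ?_ ?_ ?_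
    · intro x
      rfl
    · intro y
      funext i
      change y 0 = y i
      congr 1
      exact Subsingleton.elim _ _
    · exact continuous_pi fun _ => continuous_id
    · exact continuous_apply 0
  have h2 : OE (Fin 5 → UU PW) (Fin 1 → UU PW) := OE_W.trans h1
  have h3 := h2.sum (Fin k)
  refine (OE.reindex (UU PW) ?_).trans (h3.trans (OE.reindex (UU PW) ?_))
  · exact (finCongr (by omega)).trans finSumFinEquiv.symm
  · exact finSumFinEquiv.trans (finCongr (by omega))

theorem OE_add_mul (k j : ℕ) : OE (Fin (k + 1 + 4 * j) → UU PW) (Fin (k + 1) → UU PW) := by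
  induction j with
  | zero => exact OE.reindex _ (finCongr (by omega))
  | succ j ih =>
    refine OE.trans ?_ ih
    refine (OE.reindex (UU PW) (finCongr ?_)).trans
      ((OE_add4 (k + 4 * j)).trans (OE.reindex (UU PW) (finCongr ?_)))
    · omega
    · omega

theorem commensurable_U {q : ℕ} (hq : 2 ≤ q) {n : ℕ} (hn : 1 ≤ n) (h4 : 4 ∣ q * (n - 1)) :
    TopCommensurable (UU (PU q)) (Fin n → UU (PU q)) := by
  obtain ⟨j, hj⟩ := h4
  have hqn : q * n = (q - 1) + 1 + 4 * j := by
    rw [← hj]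
    obtain ⟨n, rfl⟩ : ∃ n', n = n' + 1 := ⟨n - 1, by omega⟩
    rw [Nat.add_sub_cancel, Nat.mul_succ]
    omega
  have h1 : OE (Fin (q * n) → UU PW) (UU (PU q)) := by
    refine (OE.reindex (UU PW) (finCongr hqn)).trans ((OE_add_mul (q - 1) j).trans
      ((OE.reindex (UU PW) (finCongr (by omega))).trans (OE_U q)))
  have h2 : OE (Fin (q * n) → UU PW) (Fin n → UU (PU q)) := by
    refine OE.trans ?_ ((OE_U q).pi n)
    refine OE.of_inv (X := Fin (q * n) → UU PW) (Y := Fin n → (Fin q → UU PW))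
      { toFun := fun x i j => x (finProdFinEquiv (j, i)), map_one' := rfl, map_mul' := fun _ _ => rfl }
      (fun y k => y (finProdFinEquiv.symm k).2 (finProdFinEquiv.symm k).1) ?_ ?_ ?_ ?_
    · intro x
      funext k
      change x (finProdFinEquiv (finProdFinEquiv.symm k)) = x k
      rw [Equiv.apply_symm_apply]
    · intro y
      funext i j
      change y (finProdFinEquiv.symm (finProdFinEquiv (j, i))).2
        (finProdFinEquiv.symm (finProdFinEquiv (j, i))).1 = y i j
      rw [Equiv.symm_apply_apply]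
    · exact continuous_pi fun i => continuous_pi fun j => continuous_apply _
    · exact continuous_pi fun k => (continuous_apply _).comp (continuous_apply _)
  exact TopCommensurable.of_OE h1 h2


/-- **Negative answer to Q1.** For every `q ≥ 2` there is a profinite branch group `U` on the tree
with branching sequence `(q, 5, 5, 5, ...)` such that, for all `n > 1`: if `4 ∣ q (n - 1)` then `U`
is commensurable with `U^n`; and if `n` divides no `q * 5 ^ k` then no rigid level stabiliser
`rist_U(m)` is isomorphic (even as an abstract group) to `K^n` for any group `K` at all, in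
particular for any finite-index subgroup `K` of `U`. With `q = 4`: `U` is commensurable with all its
powers, and the negated form of Q1 holds for `n = 3`; with `q = 2` it holds for `n = 3` too. -/
theorem result :
    ∀ q : ℕ, 2 ≤ q → ∃ (b : ℕ → ℕ) (U : Subgroup (LevelPerms b)),
      b 0 = q ∧ (∀ i, b (i + 1) = 5) ∧ IsProfiniteBranch U ∧
      ∀ n : ℕ, 1 < n →
        (4 ∣ q * (n - 1) → TopCommensurable U (Fin n → U)) ∧
        ((∀ k : ℕ, ¬ n ∣ q * 5 ^ k) →
          ∀ (m : ℕ) (K : Type) (_ : Group K), IsEmpty (↥(ristLevel U m) ≃* (Fin n → K))) := by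
  intro q hq
  refine ⟨bq q, UU (PU q), rfl, fun _ => rfl, isProfiniteBranch (trans_PU q), fun n hn =>
    ⟨fun h4 => commensurable_U hq hn.le h4, fun hk m K _ => ⟨fun e => ?_⟩⟩⟩
  exact hk (m - 1) (rist_not_power hq hn m K e).1

end Pool.Agent.Results.MP_ded1c1b5_al.NotPower
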